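import Mathlib
import Pool.Agent.Lib.MP_0d2548_lc.NoChoice

/-!
# No definable choice functions for `Π_n` sets in models of `RCA₀ + BΣ_n + ¬ IΣ_n`

The definitions (formulas, satisfaction, schemes, `RCA₀`, `Π_n` sets, definable functions,
canonical codes of `M`-finite sets, sequences of `M`-finite sets) are in
`Pool.Agent.Lib.MP_0d2548_lc.Defs`.
-/

set_option autoImplicit false

namespace Pool.Agent.Results.MP_0d2548_lc.NoDefinableChoice

open Pool.Agent.Lib.MP_0d2548_lc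

/-- For every `n ≥ 2` there are a model `𝓜` of `RCA₀ + BΣ_n + ¬ IΣ_n` (with countable first-order
part), a `Π_n` set `X` of `𝓜` and a sequence `⟨A s⟩` of pairwise disjoint `𝓜`-finite sets which
belongs to `𝓜`, each `A s` meeting `X`, such that no function `f` definable in `𝓜` (by a formula of
second-order arithmetic with parameters) satisfies `f s ∈ A s ∩ X` for all `s`. -/
theorem result : ∀ n : ℕ, 2 ≤ n → ∃ 𝓜 : Str, Countable 𝓜.M ∧
    RCA0 𝓜 ∧ BSigma 𝓜 n ∧ ¬ ISigma 𝓜 n ∧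
    ∃ (X : Set 𝓜.M) (A : 𝓜.M → Set 𝓜.M),
      IsPiSet 𝓜 n X ∧
      (∃ Z ∈ 𝓜.S, 𝓜.IsSeq Z A) ∧
      (∀ s s', s ≠ s' → Disjoint (A s) (A s')) ∧
      (∀ s, (A s ∩ X).Nonempty) ∧
      ∀ f : 𝓜.M → 𝓜.M, IsDefinableFun 𝓜 f → ∃ s, f s ∉ A s ∩ X := by
  intro n hn
  obtain ⟨j, rfl⟩ : ∃ j, n = j + 2 := ⟨n - 2, by omega⟩
  exact ⟨mo j, inferInstanceAs (Countable (Mo j)), rca0_mo j, bsigma_mo j, not_isigma j,
    XX j, AA, isPiSet_XX j, ⟨ZZ j, ZZ_mem j, isSeq_ZZ j⟩, fun s s' h => AA_disjoint h,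
    XX_meets, no_choice⟩

end Pool.Agent.Results.MP_0d2548_lc.NoDefinableChoice
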